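import Pool.Agent.Helper96_LAX.Stmts

/-!
# LAX: module P1

Phase I from the modules P1B, P1S, P1I, P1N.
-/

set_option autoImplicit false

namespace Pool.Agent.LAX.H76

open Pool.Agent.LAX

/-- The condition of the halving lemma. -/
theorem exp_cond {k l s I h : ℕ} (hp : Par k l s I h) :
    288 * (k : ℝ) ^ 2 ≤ Real.exp (2 * (2 : ℝ) ^ l) := by
  have h1 := hp.p1
  have h0 : (0 : ℝ) ≤ 17 * (k : ℝ) := by positivity
  have h2 : (17 * (k : ℝ)) ^ 2 ≤ (Real.exp ((2 : ℝ) ^ l)) ^ 2 := pow_le_pow_left₀ h0 h1 2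
  have h3 : (Real.exp ((2 : ℝ) ^ l)) ^ 2 = Real.exp (2 * (2 : ℝ) ^ l) := by
    rw [← Real.exp_nat_mul]
    norm_num
  rw [h3] at h2
  have h4 : (0 : ℝ) ≤ (k : ℝ) ^ 2 := by positivity
  linarith only [h2, h4, show (17 * (k : ℝ)) ^ 2 = 289 * (k : ℝ) ^ 2 by ring]

/-- P1. -/
theorem p1 (h1 : P1BStmt) (h2 : P1SStmt) (h3 : P1IStmt) (h4 : P1NStmt) : P1Stmt := by
  intro k l s I h hp V _ E hE
  obtain ⟨L, Up, ha, hb, hc, hd, hi⟩ := h4 k l s I h hp
  have hlam : (0 : ℝ) < (2 : ℝ) ^ l := by positivity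
  have hexp := exp_cond hp
  have hg : 1 ≤ 2 ^ s := Nat.one_le_two_pow
  have hph : ∀ i ≤ I, PH1 E (2 ^ s) L Up i := by
    intro i
    induction i with
    | zero => intro _; exact h1 V E (2 ^ s) L Up hg
    | succ i ih =>
      intro hiI
      have hlt : i < I := hiI
      obtain ⟨q1, q2, q3, q4⟩ := hi i hlt
      exact h2 V E k (2 ^ s) ((2 : ℝ) ^ l) L Up i hlam hexp hE q1 q2 q3 q4 (ih hlt.le)
  have hp3 := hp.p3
  have hpow : 2 ^ (s + I + 3) = 8 * (2 ^ s * 2 ^ I) := by ring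
  have hI : 1 ≤ 2 ^ I := Nat.one_le_two_pow
  have hle : 2 ^ s ≤ 2 ^ s * 2 ^ I := Nat.le_mul_of_pos_right _ hI
  have := h3 V E k (2 ^ s) (17 * 2 ^ s) L Up I hg hE (hph I le_rfl)
    (by push_cast; linarith only [ha])
    (by push_cast; rw [← pow_add]; exact hb) hc
    (by push_cast; exact hd) (by omega)
  rw [← pow_add] at this
  exact this

end Pool.Agent.LAX.H76
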