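import Pool.Agent.Helper96_LAX.Stmts

/-!
# LAX: module PTH

The relation `pth F' Y X` (from the start of a path of `F'` to its end) is a partial injection.
-/

set_option autoImplicit false

namespace Pool.Agent.LAX.H76

open Pool.Agent.LAX

variable {V : Type}

/-- Two paths from the same vertex ending at vertices without out-arcs end at the same vertex. -/
theorem end_unique {F : Set (V × V)} (hF : PI F) {y x : V}
    (h : Relation.ReflTransGen (fun a b => (a, b) ∈ F) y x) :
    ∀ x' : V, Relation.ReflTransGen (fun a b => (a, b) ∈ F) y x' → x ∉ dom F → x' ∉ dom F →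
      x = x' := by
  induction h using Relation.ReflTransGen.head_induction_on with
  | refl =>
    intro x' h' hx hx'
    rcases Relation.ReflTransGen.cases_head h' with h0 | ⟨c, hc, _⟩
    · exact h0
    · exact absurd ⟨c, hc⟩ hx
  | head h1 _ ih =>
    intro x' h' hx hx'
    rcases Relation.ReflTransGen.cases_head h' with h0 | ⟨c, hc, hcx⟩
    · subst h0
      exact absurd ⟨_, h1⟩ hx'
    · have := hF.1 _ _ _ h1 hc
      subst this
      exact ih x' hcx hx hx'

/-- Two paths to the same vertex starting at vertices without in-arcs start at the same vertex. -/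
theorem start_unique {F : Set (V × V)} (hF : PI F) {y x : V}
    (h : Relation.ReflTransGen (fun a b => (a, b) ∈ F) y x) :
    ∀ y' : V, Relation.ReflTransGen (fun a b => (a, b) ∈ F) y' x → y ∉ ran F → y' ∉ ran F →
      y = y' := by
  induction h with
  | refl =>
    intro y' h' hy hy'
    rcases Relation.ReflTransGen.cases_tail h' with h0 | ⟨c, _, hc⟩
    · exact h0
    · exact absurd ⟨c, hc⟩ hy
  | tail _ h1 ih =>
    intro y' h' hy hy'
    rcases Relation.ReflTransGen.cases_tail h' with h0 | ⟨c, hcy, hc⟩
    · subst h0
      exact absurd ⟨_, h1⟩ hy'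
    · have := hF.2 _ _ _ h1 hc
      subst this
      exact ih y' hcy hy hy'

/-- PTH. -/
theorem pth_thm : PthStmt := by
  intro V F' Y X hF hX hY
  refine ⟨?_, ?_⟩
  · intro y x x' h1 h2
    exact end_unique hF h1.2.2 x' h2.2.2 (hX _ h1.2.1) (hX _ h2.2.1)
  · intro y y' x h1 h2
    exact start_unique hF h1.2.2 y' h2.2.2 (hY _ h1.1) (hY _ h2.1)

end Pool.Agent.LAX.H76
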